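import Pool.Agent.N212.FQ.F

/-!
# Finite groups of projective transformations acting freely on a hypersurface

If a finite group `G` acts linearly on `ℂ^M`, `M ≥ 2`, and `G / S`, `S` the scalars, acts freely on a
hypersurface of degree `d ≥ 1`, then the order of `G / S` divides `M d` and has no prime factors
smaller than `M`; it divides `d` if `M` is not prime or `M ^ 2` does not divide the order.
-/

set_option autoImplicit false

namespace Pool.Agent.V5helper70.FUJ

open MvPolynomial Pool.Agent.N212.FQ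

variable {M : ℕ} {G : Type} [Group G] {ρ : Representation ℂ G (Fin M → ℂ)}

/-- `G` acts on the hypersurface `f = 0` of degree `d`, and `G` modulo scalars acts freely -/
structure Act (ρ : Representation ℂ G (Fin M → ℂ)) (f : MvPolynomial (Fin M) ℂ) (d : ℕ) : Prop where
  hom : f.IsHomogeneous d
  semi : ∀ g, ∃ c : ℂ, ∀ x, eval (ρ g x) f = c * eval x f
  free : ∀ v : Fin M → ℂ, v ≠ 0 → eval v f = 0 → ∀ (g : G) (μ : ℂ), ρ g v = μ • v →
      g ∈ scalars ρ

variable {f : MvPolynomial (Fin M) ℂ} {d : ℕ}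

/-- two independent eigenvectors with the same eigenvalue -/
theorem mem_of_two (h : Act ρ f d) (hd : 1 ≤ d) {g : G} {x y : Fin M → ℂ} {μ : ℂ}
    (hli : LinearIndependent ℂ ![x, y]) (hx : ρ g x = μ • x) (hy : ρ g y = μ • y) :
    g ∈ scalars ρ := by
  obtain ⟨s, t, hne, h0⟩ := Pool.Agent.N738.FQ.exists_zero hd h.hom hli
  refine h.free _ hne h0 g μ ?_
  rw [map_add, map_smul, map_smul, hx, hy, smul_add, smul_comm μ s, smul_comm μ t]

/-- the eigenspaces of a nonscalar element have dimension at most one -/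
theorem finrank_eigenspace_le (h : Act ρ f d) (hd : 1 ≤ d) {g : G} (hg : g ∉ scalars ρ) (μ : ℂ) :
    Module.finrank ℂ (Module.End.eigenspace (ρ g) μ) ≤ 1 := by
  by_cases h0 : ∃ x : Fin M → ℂ, x ≠ 0 ∧ ρ g x = μ • x
  · obtain ⟨x, hx0, hx⟩ := h0
    refine finrank_le_one (⟨x, Module.End.mem_eigenspace_iff.2 hx⟩ :
      Module.End.eigenspace (ρ g) μ) fun w => ?_
    by_contra hcon
    push Not at hcon
    refine hg (mem_of_two h hd (x := x) (y := w) ?_ hx (Module.End.mem_eigenspace_iff.1 w.2))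
    rw [LinearIndependent.pair_iff' hx0]
    intro a ha
    exact hcon a (Subtype.ext ha)
  · push Not at h0
    refine finrank_le_one (0 : Module.End.eigenspace (ρ g) μ) fun w => ⟨0, ?_⟩
    by_contra hw
    refine h0 w (fun h1 => hw ?_) (Module.End.mem_eigenspace_iff.1 w.2)
    rw [zero_smul]
    exact (Subtype.ext h1).symm

/-- the dimension is at most the sum of the dimensions -/
theorem finrank_biSup_le {V : Type} [AddCommGroup V] [Module ℂ V] [FiniteDimensional ℂ V]
    (s : Finset ℂ) (E : ℂ → Submodule ℂ V) (hE : ∀ μ, Module.finrank ℂ (E μ) ≤ 1) :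
    Module.finrank ℂ (⨆ μ ∈ s, E μ : Submodule ℂ V) ≤ s.card := by
  classical
  induction s using Finset.induction_on with
  | empty => simp
  | insert a s ha ih =>
    rw [Finset.iSup_insert, Finset.card_insert_of_notMem ha]
    refine (Submodule.finrank_add_le_finrank_add_finrank _ _).trans ?_
    have := hE a
    omega

/-- The order modulo scalars has no prime factor smaller than `M`. -/
theorem le_of_pow_mem (h : Act ρ f d) (hd : 1 ≤ d) {z : G} (hz : z ∉ scalars ρ) {q : ℕ}
    (hq : 1 ≤ q) (hzq : z ^ q ∈ scalars ρ) : M ≤ q := by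
  classical
  obtain ⟨c, hc⟩ := hzq
  rcases Nat.eq_zero_or_pos M with hM | hM
  · omega
  have : Nonempty (Fin M) := ⟨⟨0, hM⟩⟩
  have hc0 : c ≠ 0 := by
    rintro rfl
    have h1 : ρ (z ^ q) (fun _ => 1) = 0 := by rw [hc, zero_smul]
    have h2 := rho_injective ρ (z ^ q) (h1.trans (map_zero _).symm)
    have h3 := congrFun h2 ⟨0, hM⟩
    simp at h3
  have hpow : (ρ z) ^ q = c • (1 : Module.End ℂ (Fin M → ℂ)) := by
    rw [← map_pow]
    refine LinearMap.ext fun y => ?_
    rw [hc, LinearMap.smul_apply, Module.End.one_apply]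
  have hss : Module.End.IsSemisimple (ρ z) := by
    refine Module.End.isSemisimple_of_squarefree_aeval_eq_zero
      (p := Polynomial.X ^ q - Polynomial.C c) ?_ ?_
    · refine Polynomial.Separable.squarefree ?_
      exact Polynomial.separable_X_pow_sub_C c (by exact_mod_cast (by omega : q ≠ 0)) hc0
    · rw [map_sub, map_pow, Polynomial.aeval_X, Polynomial.aeval_C, hpow,
        Algebra.algebraMap_eq_smul_one, sub_self]
  have htop : (⨆ μ, Module.End.eigenspace (ρ z) μ) = ⊤ := by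
    rw [← Module.End.iSup_maxGenEigenspace_eq_top (ρ z)]
    refine iSup_congr fun μ => ?_
    exact (Module.End.IsFinitelySemisimple.maxGenEigenspace_eq_eigenspace
      (Module.End.isFinitelySemisimple_iff_isSemisimple.2 hss) μ).symm
  set R : Finset ℂ := (Polynomial.nthRoots q c).toFinset with hR
  have hRc : R.card ≤ q := (Multiset.toFinset_card_le _).trans (Polynomial.card_nthRoots q c)
  have hsup : (⨆ μ ∈ R, Module.End.eigenspace (ρ z) μ) = ⊤ := by
    rw [eq_top_iff, ← htop]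
    refine iSup_le fun μ => ?_
    by_cases hμ : μ ∈ R
    · exact le_iSup₂_of_le μ hμ le_rfl
    · intro x hx
      have hx1 := Module.End.mem_eigenspace_iff.1 hx
      have hx2 : ∀ j : ℕ, (ρ z ^ j) x = μ ^ j • x := by
        intro j
        induction j with
        | zero => simp
        | succ j ih =>
          rw [pow_succ', Module.End.mul_apply, ih, map_smul, hx1, smul_smul, pow_succ]
      have hx3 : x = 0 := by
        by_contra hx0
        refine hμ ?_
        rw [hR, Multiset.mem_toFinset, Polynomial.mem_nthRoots (by omega)]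
        have h3 := hx2 q
        rw [hpow, LinearMap.smul_apply, Module.End.one_apply] at h3
        exact (smul_left_injective ℂ hx0 h3).symm
      rw [hx3]
      exact Submodule.zero_mem _
  have h4 := finrank_biSup_le R (fun μ => Module.End.eigenspace (ρ z) μ)
    (finrank_eigenspace_le h hd hz)
  rw [hsup, finrank_top, Module.finrank_fin_fun] at h4
  omega

/-- a prime factor of the order divides the degree -/
theorem prime_dvd (hM : 2 ≤ M) (h : Act ρ f d) (hd : 1 ≤ d) [Finite G] {z : G}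
    (hz : z ∉ scalars ρ) {q : ℕ} (hq : q.Prime) (hzq : z ^ q ∈ scalars ρ) : q ∣ d := by
  obtain ⟨x, y, μ, ν, hli, hx, hy⟩ := Pool.Agent.N738.FQ.two_eig hM (orderOf_pos z) (ρ z) (by
    rw [← map_pow, pow_orderOf_eq_one, map_one])
  obtain ⟨hx0, hy0⟩ : x ≠ 0 ∧ y ≠ 0 := ⟨hli.ne_zero 0, hli.ne_zero 1⟩
  have hfx : eval x f ≠ 0 := fun h1 => hz (h.free x hx0 h1 z μ hx)
  have hfy : eval y f ≠ 0 := fun h1 => hz (h.free y hy0 h1 z ν hy)
  have hμν : μ ≠ ν := by
    rintro rfl
    exact hz (mem_of_two h hd hli hx hy)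
  obtain ⟨c, hc⟩ := hzq
  have hp : ∀ (w : Fin M → ℂ) (lam : ℂ), w ≠ 0 → ρ z w = lam • w → lam ^ q = c := by
    intro w lam hw0 hw
    have h2 : ∀ j : ℕ, (ρ z ^ j) w = lam ^ j • w := by
      intro j
      induction j with
      | zero => simp
      | succ j ih =>
        rw [pow_succ', Module.End.mul_apply, ih, map_smul, hw, smul_smul, pow_succ]
    have h3 := h2 q
    rw [← map_pow, hc] at h3
    exact (smul_left_injective ℂ hw0 h3).symm
  obtain ⟨s, hs⟩ := h.semi z
  have hpd : ∀ (w : Fin M → ℂ) (lam : ℂ), eval w f ≠ 0 → ρ z w = lam • w → lam ^ d = s := by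
    intro w lam hw0 hw
    have h3 := hs w
    rw [hw, eval_smul_of_isHomogeneous h.hom] at h3
    exact mul_right_cancel₀ hw0 h3
  have hν0 : ν ≠ 0 := by
    rintro rfl
    rw [zero_smul] at hy
    exact rep_ne_zero hy0 z hy
  have h1 : (μ / ν) ^ q = 1 := by
    rw [div_pow, hp x μ hx0 hx, hp y ν hy0 hy, div_self]
    rw [← hp y ν hy0 hy]
    exact pow_ne_zero _ hν0
  have h2 : (μ / ν) ^ d = 1 := by
    rw [div_pow, hpd x μ hfx hx, hpd y ν hfy hy, div_self]
    rw [← hpd y ν hfy hy]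
    exact pow_ne_zero _ hν0
  have h3 : μ / ν ≠ 1 := by
    rw [Ne, div_eq_one_iff_eq hν0]
    exact hμν
  have : Fact q.Prime := ⟨hq⟩
  rw [← orderOf_eq_prime h1 h3]
  exact orderOf_dvd_of_pow_eq_one h2

/-- the determinant character -/
noncomputable def detChar (ρ : Representation ℂ G (Fin M → ℂ)) : G →* ℂˣ :=
  (LinearMap.det.comp ρ).toHomUnits

theorem detChar_apply (g : G) {c : ℂ} (hc : ∀ x, ρ g x = c • x) : (detChar ρ g : ℂ) = c ^ M := by
  have h1 : ρ g = c • (1 : Module.End ℂ (Fin M → ℂ)) := LinearMap.ext fun x => by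
    rw [hc, LinearMap.smul_apply, Module.End.one_apply]
  show LinearMap.det (ρ g) = c ^ M
  rw [h1, LinearMap.det_smul, map_one, mul_one, Module.finrank_fin_fun]

/-- The order modulo scalars divides `M d`. -/
theorem index_dvd_mul (hM : 2 ≤ M) [Finite G] (h : Act ρ f d) (hd : 1 ≤ d) :
    (scalars ρ).index ∣ M * d := by
  have h1 := ord_dvd hM hd (by omega : 1 ≤ M) h.hom h.semi h.free (detChar ρ)
    (fun g c hc => detChar_apply g hc)
  rw [← Subgroup.index_mul_card (scalars ρ)] at h1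
  exact Nat.dvd_of_mul_dvd_mul_right Nat.card_pos h1

/-- The order modulo scalars divides `d`, if `M` is not prime or `M ^ 2` does not divide it. -/
theorem index_dvd (hM : 2 ≤ M) [Finite G] (h : Act ρ f d) (hd : 1 ≤ d)
    (hMp : ¬ M.Prime ∨ ¬ M ^ 2 ∣ (scalars ρ).index) : (scalars ρ).index ∣ d := by
  have h1 := index_dvd_mul hM h hd
  rw [Nat.dvd_iff_prime_pow_dvd_dvd]
  intro q j hq hj
  rcases Nat.eq_zero_or_pos j with hj0 | hj0
  · rw [hj0, pow_zero]
    exact one_dvd _
  have : Fact q.Prime := ⟨hq⟩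
  have h2 : q ∣ Nat.card (G ⧸ scalars ρ) := by
    refine (dvd_pow_self q hj0.ne').trans ?_
    rwa [← Subgroup.index_eq_card]
  obtain ⟨zb, hzb⟩ := exists_prime_orderOf_dvd_card' q h2
  obtain ⟨z, rfl⟩ := QuotientGroup.mk_surjective zb
  have hz : z ∉ scalars ρ := by
    intro h3
    rw [(QuotientGroup.eq_one_iff z).2 h3, orderOf_one] at hzb
    exact hq.one_lt.ne hzb
  have hzq : z ^ q ∈ scalars ρ := by
    rw [← QuotientGroup.eq_one_iff, QuotientGroup.mk_pow, ← hzb, pow_orderOf_eq_one]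
  have h3 : M ≤ q := le_of_pow_mem h hd hz hq.one_lt.le hzq
  have h4 : q ∣ d := prime_dvd hM h hd hz hq hzq
  rcases h3.eq_or_lt with h5 | h5
  · have h6 : j < 2 := by
      by_contra h7
      rcases hMp with h8 | h8
      · exact h8 (h5.symm ▸ hq)
      · refine h8 ?_
        have h9 : q ^ 2 ∣ (scalars ρ).index := (pow_dvd_pow q (by omega : 2 ≤ j)).trans hj
        exact h5.symm ▸ h9
    obtain rfl : j = 1 := by omega
    rwa [pow_one]
  · refine Nat.Coprime.dvd_of_dvd_mul_left ?_ (hj.trans h1)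
    refine Nat.Coprime.pow_left j ?_
    rw [Nat.Prime.coprime_iff_not_dvd hq]
    intro h6
    have := Nat.le_of_dvd (by omega) h6
    omega

/-- If the order modulo scalars does not divide `d`, then `M` is prime and `O(k)` is the pullback of
a line bundle only if `M` divides `k`. -/
theorem dvd_of_not (hM : 2 ≤ M) [Finite G] (h : Act ρ f d) (hd : 1 ≤ d)
    (hnd : ¬ (scalars ρ).index ∣ d) {k : ℕ} (θ : G →* ℂˣ)
    (hθ : ∀ (g : G) (c : ℂ), (∀ x, ρ g x = c • x) → (θ g : ℂ) = c ^ k) : M ∣ k := by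
  have hp : M.Prime := by
    by_contra h1
    exact hnd (index_dvd hM h hd (Or.inl h1))
  by_contra hk
  have hcop : Int.gcd (M : ℤ) k = 1 := by
    rw [Int.gcd_natCast_natCast]
    exact (Nat.Prime.coprime_iff_not_dvd hp).2 hk
  have hbez := Int.gcd_eq_gcd_ab (M : ℤ) k
  rw [hcop] at hbez
  have : Nonempty (Fin M) := ⟨⟨0, by omega⟩⟩
  refine hnd ?_
  have h1 := ord_dvd hM hd (le_refl 1) h.hom h.semi h.free
    (detChar ρ ^ (Int.gcdA (M : ℤ) k) * θ ^ (Int.gcdB (M : ℤ) k)) (fun g c hc => ?_)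
  · rw [← Subgroup.index_mul_card (scalars ρ), one_mul] at h1
    exact Nat.dvd_of_mul_dvd_mul_right Nat.card_pos h1
  · have hc0 : c ≠ 0 := by
      rintro rfl
      have h2 : ρ g (fun _ => 1) = 0 := by rw [hc, zero_smul]
      have h3 := rho_injective ρ g (h2.trans (map_zero _).symm)
      have h4 := congrFun h3 ⟨0, by omega⟩
      simp at h4
    rw [MonoidHom.mul_apply, MonoidHom.zpow_apply, MonoidHom.zpow_apply, Units.val_mul,
      Units.val_zpow_eq_zpow_val, Units.val_zpow_eq_zpow_val, detChar_apply g hc, hθ g c hc,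
      ← zpow_natCast, ← zpow_natCast, ← zpow_mul, ← zpow_mul, ← zpow_add₀ hc0, ← hbez]
    simp

/-- the hypotheses of the library -/
theorem free_unit (h : Act ρ f d) : Free ρ (fun _ : Unit => f) (fun _ => d) := by
  refine free_of_ideal (I := Ideal.span (Set.range fun _ : Unit => f)) (fun _ => h.hom) rfl ?_ ?_
  · intro g p hp
    rw [Set.range_const, Ideal.mem_span_singleton'] at hp ⊢
    obtain ⟨a, rfl⟩ := hp
    obtain ⟨c, hc⟩ := h.semi g
    refine ⟨subst (ρ g) a * C c, ?_⟩
    refine MvPolynomial.funext fun x => ?_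
    rw [eval_subst, map_mul, map_mul, map_mul, hc, eval_subst, eval_C]
    ring
  · intro v hv0 hv g μ hg
    refine h.free v hv0 ?_ g μ hg
    exact hv f (Ideal.subset_span ⟨(), rfl⟩)

variable [Finite G]

theorem sum_le (m : ℕ) (k : Fin m → ℕ) (hk : ∀ i, 1 ≤ k i) : m ≤ ∑ i, k i := by
  calc m = ∑ _i : Fin m, 1 := by simp
    _ ≤ ∑ i, k i := Finset.sum_le_sum fun i _ => hk i

/-- the numerical part -/
theorem index_bounds (hM : 2 ≤ M) (h : Act ρ f d) (hd : 1 ≤ d) (m : ℕ) (k : Fin m → ℕ)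
    (hk : ∀ i, 1 ≤ k i)
    (hA : ∀ i, ∃ θ : G →* ℂˣ, ∀ (g : G) (c : ℂ), (∀ x, ρ g x = c • x) → (θ g : ℂ) = c ^ k i)
    (e : ℕ) (he : e + M = d + ∑ i, k i) :
    (M ≤ m + 1 → (¬ M.Prime ∨ ¬ M ^ 2 ∣ (scalars ρ).index ∨ d ≤ 2 * M) →
      (scalars ρ).index ≤ e + 1 ∨ (scalars ρ).index ≤ 2 * e + 1 ∧ d ≤ e + 1) ∧
    (M ≤ m → (¬ M.Prime ∨ ¬ M ^ 2 ∣ (scalars ρ).index ∨ d ≤ M) →
      (scalars ρ).index ≤ e ∧ d ≤ e + 1) := by
  have h1 := sum_le m k hk
  by_cases hdv : (scalars ρ).index ∣ d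
  · have h2 := Nat.le_of_dvd hd hdv
    refine ⟨fun hm _ => Or.inl (by omega), fun hm _ => ⟨by omega, by omega⟩⟩
  · have h2 : ∀ i, M ≤ k i := by
      intro i
      obtain ⟨θ, hθ⟩ := hA i
      exact Nat.le_of_dvd (hk i) (dvd_of_not hM h hd hdv θ hθ)
    have h3 : m * M ≤ ∑ i, k i := by
      calc m * M = ∑ _i : Fin m, M := by simp
        _ ≤ ∑ i, k i := Finset.sum_le_sum fun i _ => h2 i
    have h4 : (scalars ρ).index ≤ M * d :=
      Nat.le_of_dvd (by positivity) (index_dvd_mul hM h hd)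
    have h5 : M.Prime ∧ M ^ 2 ∣ (scalars ρ).index := by
      by_contra h6
      refine hdv (index_dvd hM h hd ?_)
      tauto
    refine ⟨fun hm hc => ?_, fun hm hc => ?_⟩
    · have h6 : d ≤ 2 * M := by tauto
      have h7 : (M - 1) * M ≤ ∑ i, k i := le_trans (Nat.mul_le_mul_right _ (by omega)) h3
      obtain ⟨M', rfl⟩ : ∃ M', M = M' + 2 := ⟨M - 2, by omega⟩
      have h8 : M' + 2 - 1 = M' + 1 := by omega
      rw [h8] at h7
      refine Or.inr ⟨?_, ?_⟩
      · refine h4.trans ?_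
        have h9 : M' * d ≤ M' * (2 * (M' + 2)) := Nat.mul_le_mul_left _ h6
        nlinarith
      · nlinarith
    · have h6 : d ≤ M := by tauto
      have h7 : M * M ≤ ∑ i, k i := le_trans (Nat.mul_le_mul_right _ hm) h3
      obtain ⟨M', rfl⟩ : ∃ M', M = M' + 2 := ⟨M - 2, by omega⟩
      refine ⟨?_, ?_⟩
      · refine h4.trans ?_
        have h9 : (M' + 1) * d ≤ (M' + 1) * (M' + 2) := Nat.mul_le_mul_left _ h6
        nlinarith
      · nlinarith

end Pool.Agent.V5helper70.FUJ
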