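import Pool.Agent.R920.WC.Poly

/-!
# Fujita's freeness conjecture for weighted complete intersections with pairwise coprime weights

Let `X = V(f_1, ..., f_c)` be a complete intersection of degrees `d_1, ..., d_c` and dimension `n` in
the weighted projective space `P(a_0, ..., a_{n+c})` with pairwise coprime weights, on which `O(1)` is
invertible: no coordinate point `(0, ..., 1, ..., 0)` of a weight `a_i > 1` lies on `X`. Then
`K_X = O(∑ d_j - ∑ a_i)`, and we show that `K_X + A_1 + ... + A_m` is globally generated by weighted
homogeneous polynomials for `A_i = O(k_i)`, `k_i ≥ 1`, and `m ≥ n + 1`. For `A_1 = ... = A_m` this is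
Fujita's freeness conjecture for `X` (if `n ≥ 3` and `X` is smooth then all line bundles on `X` are of the
form `O(k)`). There is no condition on the codimension `c`. For `c = 1` the conjecture is due to
Pizzato, Sano and Tasin; for smooth `X` and `c = 1` the weights are always pairwise coprime. The
starting result `MP_e09b14_ag.CoprimeCodimensionTwo` says that `K_X + mA` is very ample for
`m ≥ n + 2`, if `O(1)` is invertible on the zero locus of two of the equations.

The proof is arithmetic (`Pool.Agent.R920.WC.generated`): if `v` is a point of `X` with nonzero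
coordinates `v_i`, `i ∈ I`, all of weight `a_i > 1`, then for `i ∈ I` a pure power of `x_i` occurs in some
`f_j`, and because of `f_j(v) = 0` there is another monomial in the `x_k`, `k ∈ I`, in `f_j`. With these
relations between the weights it is shown that every number `e ≥ ∑ (d_j - 1) - ∑ (a_i - 1)` is a sum
of weights `a_i`, `i ∈ I`.
-/

set_option autoImplicit false

namespace Pool.Agent.V5helper70.FUJ.CoprimeWeights

open MvPolynomial

/-- **Fujita's freeness conjecture for weighted complete intersections with pairwise coprime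
weights.** -/
theorem result (n c : ℕ)
    -- the weights, pairwise coprime
    (a : Fin (n + c + 1) → ℕ) (ha : ∀ i, 0 < a i) (hcop : ∀ i i', i ≠ i' → Nat.Coprime (a i) (a i'))
    -- the equations
    (d : Fin c → ℕ) (hd : ∀ j, 0 < d j)
    (f : Fin c → MvPolynomial (Fin (n + c + 1)) ℂ) (hf : ∀ j, IsWeightedHomogeneous a (f j) (d j))
    -- `O(1)` is invertible on `X`
    (hX : ∀ i, 1 < a i → ∃ j, eval (Pi.single i 1 : Fin (n + c + 1) → ℂ) (f j) ≠ 0)
    -- the line bundle `K_X + O(k_1) + ... + O(k_m) = O(e)`
    (m : ℕ) (hm : n + 1 ≤ m) (k : Fin m → ℕ) (hk : ∀ i, 1 ≤ k i) (e : ℕ)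
    (he : e + ∑ i, a i = ∑ j, d j + ∑ i, k i) :
    ∀ v : Fin (n + c + 1) → ℂ, v ≠ 0 → (∀ j, eval v (f j) = 0) →
      ∃ s : MvPolynomial (Fin (n + c + 1)) ℂ, IsWeightedHomogeneous a s e ∧ eval v s ≠ 0 := by
  intro v hv hfv
  refine Pool.Agent.R920.WC.generated a ha hcop d hd f hf hX ?_ v hv hfv
  have h1 : ∑ i, a i = ∑ i, (a i - 1) + (n + c + 1) := by
    have : ∑ i, a i = ∑ i, ((a i - 1) + 1) := Finset.sum_congr rfl fun i _ => by
      have := ha i
      omega
    rw [this, Finset.sum_add_distrib]
    simp
  have h2 : ∑ j, d j = ∑ j, (d j - 1) + c := by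
    have : ∑ j, d j = ∑ j, ((d j - 1) + 1) := Finset.sum_congr rfl fun j _ => by
      have := hd j
      omega
    rw [this, Finset.sum_add_distrib]
    simp
  have h3 : m ≤ ∑ i, k i := by
    calc m = ∑ _i : Fin m, 1 := by simp
      _ ≤ ∑ i, k i := Finset.sum_le_sum fun i _ => hk i
  omega

end Pool.Agent.V5helper70.FUJ.CoprimeWeights
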